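import Mathlib

/-!
# Trace covers: short witnesses of non-duality

`F`, `G` are cross-intersecting families of subsets of `Fin n`. A witness (of non-duality) is a set `y`
which meets all members of `G` and contains no member of `F`. If there is a witness then there is one
of the form `(A_1 ∪ ... ∪ A_k) ∩ V_i ∪ e ∪ (W_{i+1} \ (B_1 ∪ ... ∪ B_l))` where `V_i = {j < i}`,
`W_{i+1} = {j > i}`, `e ⊆ {i}`, `A_1, ..., A_k ∈ F`, `B_1, ..., B_l ∈ G`, and `k`, `l` are about the
logarithms of the maximal sizes of the members of `F` and of `G`.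
-/

set_option autoImplicit false

namespace Pool.Agent.Helper33.TC

/-- `y` meets all members of `G` and contains no member of `F`. -/
def Wit {n : ℕ} (F G : Finset (Finset (Fin n))) (y : Finset (Fin n)) : Prop :=
  (∀ B ∈ G, (B ∩ y).Nonempty) ∧ ∀ A ∈ F, ¬ A ⊆ y

/-- The set of the vertices smaller than `i`. -/
def VI (n i : ℕ) : Finset (Fin n) := Finset.univ.filter (fun j => (j : ℕ) < i)

theorem mem_VI {n i : ℕ} {j : Fin n} : j ∈ VI n i ↔ (j : ℕ) < i := by
  simp [VI]

/-- Greedy covers. -/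
theorem cover {α : Type*} [DecidableEq α] (S : Finset (Finset α)) (m : ℕ) : ∀ P : Finset α,
    (∀ Q ⊆ P, Q.Nonempty → ∃ A ∈ S, Q.card ≤ 2 * (A ∩ Q).card) → P.card < 2 ^ m →
    ∃ T ⊆ S, T.card ≤ m ∧ P ⊆ T.sup id := by
  induction m with
  | zero =>
    intro P h hP
    have : P = ∅ := by
      rw [← Finset.card_eq_zero]
      simpa using hP
    subst this
    exact ⟨∅, by simp, by simp, by simp⟩
  | succ m ih =>
    intro P h hP
    rcases P.eq_empty_or_nonempty with rfl | hne
    · exact ⟨∅, by simp, by simp, by simp⟩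
    · obtain ⟨A, hA, hc⟩ := h P subset_rfl hne
      obtain ⟨T, hT, hTc, hTP⟩ := ih (P \ A)
        (fun Q hQ => h Q (hQ.trans Finset.sdiff_subset)) (by
          have h1 : (P \ A).card + (P ∩ A).card = P.card := Finset.card_sdiff_add_card_inter P A
          rw [Finset.inter_comm] at h1
          rw [pow_succ] at hP
          omega)
      refine ⟨insert A T, ?_, ?_, ?_⟩
      · intro x hx
        rcases Finset.mem_insert.1 hx with rfl | hx
        · exact hA
        · exact hT hx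
      · exact (Finset.card_insert_le _ _).trans (by omega)
      · intro x hx
        rw [Finset.sup_insert]
        by_cases hxA : x ∈ A
        · exact Finset.mem_union_left _ hxA
        · exact Finset.mem_union_right _ (hTP (Finset.mem_sdiff.2 ⟨hx, hxA⟩))

variable {n : ℕ}

/-- The witness with the largest binary expansion. -/
theorem exists_largest (F G : Finset (Finset (Fin n))) (y₀ : Finset (Fin n)) (h₀ : Wit F G y₀) :
    ∃ g, Wit F G g ∧ ∀ y, Wit F G y → ∀ z ∈ y, z ∉ g → ∃ b ∈ g, b ∉ y ∧ z < b := by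
  classical
  obtain ⟨g, hg, hmax⟩ := Finset.exists_max_image (Finset.univ.filter (Wit F G))
    (fun y : Finset (Fin n) => toColex y) ⟨y₀, by simpa using h₀⟩
  refine ⟨g, (Finset.mem_filter.1 hg).2, fun y hy z hz hzg => ?_⟩
  by_contra hcon
  push Not at hcon
  have h1 : toColex g < toColex y :=
    Finset.Colex.toColex_lt_toColex_iff_exists_forall_lt.2
      ⟨z, hz, hzg, fun b hb hby => lt_of_le_of_ne (hcon b hb hby) (fun e => hzg (e ▸ hb))⟩
  exact absurd (hmax y (by simpa using hy)) (not_le.2 h1)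

/-- Minimal lower parts. -/
theorem exists_lower (F G : Finset (Finset (Fin n))) (g : Finset (Fin n)) (hg : Wit F G g) (i : ℕ) :
    ∃ P ⊆ g ∩ VI n i, Wit F G (P ∪ (g \ VI n i)) ∧
      ∀ t ∈ P, ¬ Wit F G (P.erase t ∪ (g \ VI n i)) := by
  classical
  obtain ⟨P, hP, hmin⟩ := exists_minimal_le_of_wellFoundedLT
    (fun P : Finset (Fin n) => Wit F G (P ∪ (g \ VI n i))) (g ∩ VI n i) (by
      have : g ∩ VI n i ∪ g \ VI n i = g := by
        ext x
        by_cases h : x ∈ VI n i <;> simp [h]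
      simpa [this] using hg)
  refine ⟨P, hP, hmin.prop, fun t ht hW => ?_⟩
  have := hmin.le_of_le hW (Finset.erase_subset t P)
  exact (Finset.notMem_erase t P) (this ht)

/-- Halving: every nonempty subset of `P` is half covered by a member `A` of `F` with trace in `P`. -/
def Halv (F : Finset (Finset (Fin n))) (i : ℕ) (P : Finset (Fin n)) : Prop :=
  ∀ Q ⊆ P, Q.Nonempty → ∃ A ∈ F, A ∩ VI n i ⊆ P ∧ Q.card < 2 * (A ∩ Q).card

/-- The covers of `P`. -/
theorem good_cover (F : Finset (Finset (Fin n))) (i k : ℕ) (P : Finset (Fin n))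
    (hPV : P ⊆ VI n i) (h : Halv F i P) (hk : ∀ A ∈ F, 2 * A.card ≤ 2 ^ k) :
    ∃ T ⊆ F, T.card ≤ k ∧ P = T.sup id ∩ VI n i := by
  classical
  have hcard : P.card < 2 ^ k := by
    rcases P.eq_empty_or_nonempty with rfl | hne
    · simp
    · obtain ⟨A, hA, -, hc⟩ := h P subset_rfl hne
      have := Finset.card_le_card (Finset.inter_subset_left (s₁ := A) (s₂ := P))
      have := hk A hA
      omega
  obtain ⟨T, hT, hTc, hTP⟩ := cover (F.filter (fun A => A ∩ VI n i ⊆ P)) k P
    (fun Q hQ hne => by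
      obtain ⟨A, hA, hAP, hc⟩ := h Q hQ hne
      exact ⟨A, Finset.mem_filter.2 ⟨hA, hAP⟩, hc.le⟩) hcard
  refine ⟨T, hT.trans (Finset.filter_subset _ _), hTc, ?_⟩
  apply Finset.Subset.antisymm
  · exact fun x hx => Finset.mem_inter.2 ⟨hTP hx, hPV hx⟩
  · intro x hx
    obtain ⟨hx1, hx2⟩ := Finset.mem_inter.1 hx
    obtain ⟨A, hA, hxA⟩ := Finset.mem_sup.1 hx1
    exact (Finset.mem_filter.1 (hT hA)).2 (Finset.mem_inter.2 ⟨hxA, hx2⟩)

/-- The covers of the upper part of the complement. -/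
theorem bad_cover (F G : Finset (Finset (Fin n))) (hcross : ∀ A ∈ F, ∀ B ∈ G, (A ∩ B).Nonempty)
    (i l : ℕ) (g P : Finset (Fin n)) (hPV : P ⊆ VI n i)
    (hW : Wit F G (P ∪ (g \ VI n i)))
    (hmin : ∀ t ∈ P, ¬ Wit F G (P.erase t ∪ (g \ VI n i)))
    (hmax : ∀ z ∉ VI n i, z ∉ g → ¬ Wit F G (insert z (P ∪ (g \ VI n i))))
    (h : ¬ Halv F i P) (hl : ∀ B ∈ G, 2 * B.card < 2 ^ l) :
    ∃ T ⊆ G, T.card ≤ l ∧ g \ VI n i = (VI n i)ᶜ \ T.sup id := by
  classical
  set y := P ∪ (g \ VI n i) with hy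
  -- private members of `G`
  have hB : ∀ t ∈ P, ∃ B ∈ G, B ∩ y = {t} := by
    intro t ht
    have h1 := hmin t ht
    unfold Wit at h1
    rw [not_and_or] at h1
    have ht' : t ∉ g \ VI n i := fun hh => (Finset.mem_sdiff.1 hh).2 (hPV ht)
    have hsub : P.erase t ∪ (g \ VI n i) = y.erase t := by
      rw [hy]
      ext x
      simp only [Finset.mem_union, Finset.mem_erase]
      constructor
      · rintro (⟨h1, h2⟩ | h2)
        · exact ⟨h1, Or.inl h2⟩
        · exact ⟨fun e => ht' (e ▸ h2), Or.inr h2⟩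
      · rintro ⟨h1, h2 | h2⟩
        · exact Or.inl ⟨h1, h2⟩
        · exact Or.inr h2
    rw [hsub] at h1
    rcases h1 with h1 | h1
    · push Not at h1
      obtain ⟨B, hBG, hBe⟩ := h1
      refine ⟨B, hBG, ?_⟩
      obtain ⟨x, hx⟩ := hW.1 B hBG
      have hxt : x = t := by
        by_contra hne
        have : x ∈ B ∩ y.erase t :=
          Finset.mem_inter.2 ⟨(Finset.mem_inter.1 hx).1,
            Finset.mem_erase.2 ⟨hne, (Finset.mem_inter.1 hx).2⟩⟩
        rw [hBe] at this
        exact absurd this (Finset.notMem_empty _)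
      subst hxt
      apply Finset.Subset.antisymm
      · intro w hw
        by_contra hne
        have : w ∈ B ∩ y.erase x :=
          Finset.mem_inter.2 ⟨(Finset.mem_inter.1 hw).1,
            Finset.mem_erase.2 ⟨fun e => hne (Finset.mem_singleton.2 e),
              (Finset.mem_inter.1 hw).2⟩⟩
        rw [hBe] at this
        exact absurd this (Finset.notMem_empty _)
      · exact Finset.singleton_subset_iff.2 hx
    · exfalso
      apply h1
      intro A hA hAs
      exact hW.2 A hA (hAs.trans (Finset.erase_subset _ _))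
  -- private members of `F`
  have hA : ∀ z ∉ VI n i, z ∉ g → ∃ A ∈ F, z ∈ A ∧ A ⊆ insert z y := by
    intro z hz hzg
    have h1 := hmax z hz hzg
    unfold Wit at h1
    rw [not_and_or] at h1
    rcases h1 with h1 | h1
    · exfalso
      apply h1
      intro B hBG
      obtain ⟨x, hx⟩ := hW.1 B hBG
      exact ⟨x, Finset.mem_inter.2 ⟨(Finset.mem_inter.1 hx).1,
        Finset.mem_insert_of_mem (Finset.mem_inter.1 hx).2⟩⟩
    · push Not at h1
      obtain ⟨A, hAF, hAs⟩ := h1
      refine ⟨A, hAF, ?_, hAs⟩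
      by_contra hzA
      apply hW.2 A hAF
      intro x hx
      rcases Finset.mem_insert.1 (hAs hx) with rfl | hx'
      · exact absurd hx hzA
      · exact hx'
  choose! B hBG hBy using hB
  unfold Halv at h
  push Not at h
  obtain ⟨Q, hQP, hQne, hQ⟩ := h
  -- every `z` is in half of the `B t`
  set Z : Finset (Fin n) := (VI n i)ᶜ \ g with hZ
  have hhalf : ∀ z ∈ Z, Q.card ≤ 2 * (Q.filter (fun t => z ∈ B t)).card := by
    intro z hz
    rw [hZ, Finset.mem_sdiff, Finset.mem_compl] at hz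
    obtain ⟨A, hAF, hzA, hAs⟩ := hA z hz.1 hz.2
    have h1 : A ∩ VI n i ⊆ P := by
      intro x hx
      obtain ⟨hx1, hx2⟩ := Finset.mem_inter.1 hx
      rcases Finset.mem_insert.1 (hAs hx1) with rfl | hx'
      · exact absurd hx2 hz.1
      · rw [hy] at hx'
        rcases Finset.mem_union.1 hx' with h3 | h3
        · exact h3
        · exact absurd hx2 (Finset.mem_sdiff.1 h3).2
    have h2 := hQ A hAF h1
    have h3 : Q \ A ⊆ Q.filter (fun t => z ∈ B t) := by
      intro t ht
      obtain ⟨htQ, htA⟩ := Finset.mem_sdiff.1 ht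
      refine Finset.mem_filter.2 ⟨htQ, ?_⟩
      obtain ⟨x, hx⟩ := hcross A hAF (B t) (hBG t (hQP htQ))
      obtain ⟨hx1, hx2⟩ := Finset.mem_inter.1 hx
      rcases Finset.mem_insert.1 (hAs hx1) with rfl | hx'
      · exact hx2
      · exfalso
        have : x ∈ B t ∩ y := Finset.mem_inter.2 ⟨hx2, hx'⟩
        rw [hBy t (hQP htQ), Finset.mem_singleton] at this
        subst this
        exact htA hx1
    have h4 : (Q \ A).card + (Q ∩ A).card = Q.card := Finset.card_sdiff_add_card_inter Q A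
    rw [Finset.inter_comm] at h4
    have h5 := Finset.card_le_card h3
    omega
  -- for every set of `z` some `B t` contains half of it
  have havg : ∀ Q' ⊆ Z, Q'.Nonempty → ∃ t ∈ Q, Q'.card ≤ 2 * (B t ∩ Q').card := by
    intro Q' hQ' _
    by_contra hcon
    push Not at hcon
    have h1 : ∑ t ∈ Q, 2 * (B t ∩ Q').card < ∑ t ∈ Q, Q'.card :=
      Finset.sum_lt_sum_of_nonempty hQne hcon
    have h2 : ∑ z ∈ Q', Q.card ≤ ∑ z ∈ Q', 2 * (Q.filter (fun t => z ∈ B t)).card :=
      Finset.sum_le_sum (fun z hz => hhalf z (hQ' hz))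
    have h3 : ∑ t ∈ Q, (B t ∩ Q').card = ∑ z ∈ Q', (Q.filter (fun t => z ∈ B t)).card := by
      have e1 : ∀ t ∈ Q, (B t ∩ Q').card = ∑ z ∈ Q', if z ∈ B t then 1 else 0 := by
        intro t _
        rw [← Finset.card_filter, Finset.inter_comm, Finset.filter_mem_eq_inter]
      have e2 : ∀ z ∈ Q', (Q.filter (fun t => z ∈ B t)).card =
          ∑ t ∈ Q, if z ∈ B t then 1 else 0 := by
        intro z _
        rw [← Finset.card_filter]
      rw [Finset.sum_congr rfl e1, Finset.sum_congr rfl e2, Finset.sum_comm]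
    rw [← Finset.mul_sum, h3, Finset.sum_const, smul_eq_mul] at h1
    rw [← Finset.mul_sum, Finset.sum_const, smul_eq_mul] at h2
    rw [mul_comm] at h2
    omega
  have hcard : Z.card < 2 ^ l := by
    rcases Z.eq_empty_or_nonempty with h1 | hne
    · rw [h1]
      simp
    · obtain ⟨t, ht, hc⟩ := havg Z subset_rfl hne
      have := Finset.card_le_card (Finset.inter_subset_left (s₁ := B t) (s₂ := Z))
      have := hl (B t) (hBG t (hQP ht))
      omega
  obtain ⟨T, hT, hTc, hTP⟩ := cover (Q.image B) l Z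
    (fun Q' hQ' hne => by
      obtain ⟨t, ht, hc⟩ := havg Q' hQ' hne
      exact ⟨B t, Finset.mem_image_of_mem _ ht, hc⟩) hcard
  refine ⟨T, fun b hb => ?_, hTc, ?_⟩
  · obtain ⟨t, ht, rfl⟩ := Finset.mem_image.1 (hT hb)
    exact hBG t (hQP ht)
  · ext x
    simp only [Finset.mem_sdiff, Finset.mem_compl]
    constructor
    · rintro ⟨hxg, hxV⟩
      refine ⟨hxV, fun hxT => ?_⟩
      obtain ⟨b, hb, hxb⟩ := Finset.mem_sup.1 hxT
      obtain ⟨t, ht, rfl⟩ := Finset.mem_image.1 (hT hb)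
      have : x ∈ B t ∩ y := Finset.mem_inter.2 ⟨hxb,
        Finset.mem_union_right _ (Finset.mem_sdiff.2 ⟨hxg, hxV⟩)⟩
      rw [hBy t (hQP ht), Finset.mem_singleton] at this
      subst this
      exact hxV (hPV (hQP ht))
    · rintro ⟨hxV, hxT⟩
      refine ⟨?_, hxV⟩
      by_contra hxg
      exact hxT (hTP (by rw [hZ]; simp [hxg, hxV]))

/-- TRACE COVERS. -/
theorem trace_cover (F G : Finset (Finset (Fin n)))
    (hcross : ∀ A ∈ F, ∀ B ∈ G, (A ∩ B).Nonempty) (hG : G.Nonempty) (k l : ℕ)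
    (hk : ∀ A ∈ F, 2 * A.card ≤ 2 ^ k) (hl : ∀ B ∈ G, 2 * B.card < 2 ^ l)
    (y₀ : Finset (Fin n)) (h₀ : Wit F G y₀) :
    ∃ i : Fin n, ∃ e ⊆ ({i} : Finset (Fin n)), ∃ S ⊆ F, S.card ≤ k ∧ ∃ T ⊆ G, T.card ≤ l ∧
      Wit F G ((S.sup id ∩ VI n i) ∪ (e ∪ ((VI n (i + 1))ᶜ \ T.sup id))) := by
  classical
  obtain ⟨g, hg, hmax⟩ := exists_largest F G y₀ h₀
  choose P hPg hPW hPmin using exists_lower F G g hg
  have hPV : ∀ i, P i ⊆ VI n i := fun i => (hPg i).trans Finset.inter_subset_right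
  have hz : ∀ i, ∀ z ∉ VI n i, z ∉ g → ¬ Wit F G (insert z (P i ∪ (g \ VI n i))) := by
    intro i z hz hzg hW
    obtain ⟨b, hbg, hby, hzb⟩ := hmax _ hW z (Finset.mem_insert_self _ _) hzg
    apply hby
    refine Finset.mem_insert_of_mem (Finset.mem_union_right _ (Finset.mem_sdiff.2 ⟨hbg, ?_⟩))
    rw [mem_VI] at hz ⊢
    have : (z : ℕ) < b := hzb
    omega
  have h0 : Halv F 0 (P 0) := by
    intro Q hQ hne
    obtain ⟨x, hx⟩ := hne
    have := hPV 0 (hQ hx)
    rw [mem_VI] at this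
    omega
  have hn : ¬ Halv F n (P n) := by
    intro h
    have hV : VI n n = Finset.univ := by
      ext x
      simp [mem_VI]
    have hW := hPW n
    rw [hV, Finset.sdiff_eq_empty_iff_subset.2 (Finset.subset_univ g), Finset.union_empty] at hW
    obtain ⟨B, hB⟩ := hG
    obtain ⟨x, hx⟩ := hW.1 B hB
    obtain ⟨A, hA, hAP, -⟩ := h (P n) subset_rfl ⟨x, (Finset.mem_inter.1 hx).2⟩
    rw [hV, Finset.inter_univ] at hAP
    exact hW.2 A hA hAP
  -- the critical index
  obtain ⟨i, hin, hi1, hi2⟩ : ∃ i, i < n ∧ Halv F i (P i) ∧ ¬ Halv F (i + 1) (P (i + 1)) := by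
    by_contra hcon
    push Not at hcon
    have : ∀ i ≤ n, Halv F i (P i) := by
      intro i
      induction i with
      | zero => exact fun _ => h0
      | succ i ih => exact fun h => hcon i (by omega) (ih (by omega))
    exact hn (this n le_rfl)
  obtain ⟨S, hS, hSc, hSP⟩ := good_cover F i k (P i) (hPV i) hi1 hk
  obtain ⟨T, hT, hTc, hTP⟩ := bad_cover F G hcross (i + 1) l g (P (i + 1)) (hPV _) (hPW _)
    (hPmin _) (hz _) hi2 hl
  refine ⟨⟨i, hin⟩, g ∩ {⟨i, hin⟩}, Finset.inter_subset_right, S, hS, hSc, T, hT, hTc, ?_⟩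
  have hfin : (S.sup id ∩ VI n i) ∪ (g ∩ {⟨i, hin⟩} ∪ ((VI n (i + 1))ᶜ \ T.sup id)) =
      P i ∪ (g \ VI n i) := by
    rw [← hSP, ← hTP]
    congr 1
    ext x
    simp only [Finset.mem_union, Finset.mem_inter, Finset.mem_singleton, Finset.mem_sdiff, mem_VI,
      Fin.ext_iff]
    constructor
    · rintro (⟨h1, h2⟩ | ⟨h1, h2⟩)
      · exact ⟨h1, by omega⟩
      · exact ⟨h1, by omega⟩
    · rintro ⟨h1, h2⟩
      by_cases h3 : (x : ℕ) = i
      · exact Or.inl ⟨h1, h3⟩
      · exact Or.inr ⟨h1, by omega⟩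
  rw [hfin]
  exact hPW i

end Pool.Agent.Helper33.TC
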