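import Pool.Agent.Helper19.TC.Fam

/-! A prime `q ≥ 7` of multiplicative reduction lets the sextic form take both root number
classes. -/

namespace Pool.Agent.Helper33.TC

open Pool.Agent.Helper19.TC

lemma ndq {q : ℕ} (n : ℕ) (h1 : 0 < n) (h2 : n < q) : ((n : ℕ) : ZMod q) ≠ 0 := by
  intro h3
  rw [ZMod.natCast_eq_zero_iff] at h3
  exact absurd (Nat.le_of_dvd h1 h3) (by omega)

/-- a square `t² ≠ 0` with `2 (t² + 1)` not a square -/
lemma ex1 {q : ℕ} (hq : q.Prime) (h7 : 7 ≤ q) :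
    ∃ t : ZMod q, t ≠ 0 ∧ ¬ IsSquare (2 * (t ^ 2 + 1)) := by
  have : Fact q.Prime := ⟨hq⟩
  by_contra hcon
  push Not at hcon
  have two : (2 : ZMod q) ≠ 0 := by simpa using ndq (q := q) 2 (by norm_num) (by omega)
  have three : (3 : ZMod q) ≠ 0 := by simpa using ndq (q := q) 3 (by norm_num) (by omega)
  have five : (5 : ZMod q) ≠ 0 := by simpa using ndq (q := q) 5 (by norm_num) (by omega)
  have s2 : IsSquare (2 : ZMod q) := by
    obtain ⟨x, hx⟩ := hcon 2 two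
    obtain ⟨y, hy⟩ := hcon 3 three
    have hx' : x * x = 2 * 5 := by rw [← hx]; norm_num
    have hx0 : x ≠ 0 := by
      rintro rfl
      rw [zero_mul] at hx'
      exact mul_ne_zero two five hx'.symm
    refine ⟨y * x⁻¹, ?_⟩
    have e1 : y * x⁻¹ * (y * x⁻¹) = (y * y) * (x * x)⁻¹ := by
      rw [mul_inv]; ring
    rw [e1, ← hy, hx']
    field_simp
    norm_num
  have step : ∀ s : ZMod q, s ≠ 0 → IsSquare s → IsSquare (s + 1) := by
    rintro s hs ⟨t, ht⟩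
    have ht0 : t ≠ 0 := by
      rintro rfl
      exact hs (by rw [ht, zero_mul])
    have h1 := (hcon t ht0).mul s2
    have h2 : 2 * (t ^ 2 + 1) * 2 = (s + 1) * (2 * 2) := by rw [ht]; ring
    rw [h2] at h1
    obtain ⟨z, hz⟩ := h1
    refine ⟨z * 2⁻¹, ?_⟩
    have e1 : z * 2⁻¹ * (z * 2⁻¹) = (z * z) * (2 * 2)⁻¹ := by rw [mul_inv]; ring
    rw [e1, ← hz]
    field_simp
  have hrun : ∀ j : ℕ, 1 ≤ j → j < q → IsSquare (j : ZMod q) := by
    intro j hj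
    induction j, hj using Nat.le_induction with
    | base => intro _; exact ⟨1, by norm_num⟩
    | succ j hj ih =>
      intro hjq
      push_cast
      exact step _ (ndq j (by omega) (by omega)) (ih (by omega))
  obtain ⟨x, hx⟩ := FiniteField.exists_nonsquare (F := ZMod q) (by
    rw [ZMod.ringChar_zmod_n]; omega)
  apply hx
  have hxv : ((x.val : ℕ) : ZMod q) = x := ZMod.natCast_zmod_val x
  rcases Nat.eq_zero_or_pos x.val with h | h
  · rw [← hxv, h]; exact ⟨0, by norm_num⟩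
  · rw [← hxv]; exact hrun _ h (ZMod.val_lt x)

/-- a square `t² ≠ 1` with `1 + t²` not a square -/
lemma ex2 {q : ℕ} (hq : q.Prime) (h7 : 7 ≤ q) :
    ∃ t : ZMod q, t ^ 2 ≠ 1 ∧ ¬ IsSquare (1 + t ^ 2) := by
  have : Fact q.Prime := ⟨hq⟩
  by_contra hcon
  push Not at hcon
  have hrun : ∀ j : ℕ, 4 ≤ j → j < q → IsSquare (j : ZMod q) := by
    intro j hj
    induction j, hj using Nat.le_induction with
    | base => intro _; exact ⟨2, by norm_num⟩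
    | succ j hj ih =>
      intro hjq
      obtain ⟨t, ht⟩ := ih (by omega)
      have h1 : t ^ 2 ≠ 1 := by
        rw [sq, ← ht]
        intro h
        have h2 : ((j - 1 : ℕ) : ZMod q) = 0 := by
          rw [Nat.cast_sub (by omega), h]; norm_num
        exact ndq (j - 1) (by omega) (by omega) h2
      have h2 := hcon t h1
      rw [sq, ← ht] at h2
      push_cast
      rwa [add_comm]
  have neg : ∀ j : ℕ, 1 ≤ j → j + 4 ≤ q → IsSquare (-(j : ZMod q)) := by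
    intro j hj hjq
    have h1 := hrun (q - j) (by omega) (by omega)
    rw [Nat.cast_sub (by omega), ZMod.natCast_self, zero_sub] at h1
    exact h1
  have m1 : IsSquare (-1 : ZMod q) := by
    have := neg 1 (by omega) (by omega)
    simpa using this
  have pos : ∀ j : ℕ, 1 ≤ j → j + 4 ≤ q → IsSquare (j : ZMod q) := by
    intro j hj hjq
    have h1 := m1.mul (neg j hj hjq)
    have h2 : (-1 : ZMod q) * -(j : ZMod q) = j := by ring
    rwa [h2] at h1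
  obtain ⟨x, hx⟩ := FiniteField.exists_nonsquare (F := ZMod q) (by
    rw [ZMod.ringChar_zmod_n]; omega)
  apply hx
  have hxv : ((x.val : ℕ) : ZMod q) = x := ZMod.natCast_zmod_val x
  have hlt := ZMod.val_lt x
  rw [← hxv]
  by_cases h0 : x.val = 0
  · rw [h0]; exact ⟨0, by norm_num⟩
  by_cases h4 : x.val < 4
  · exact pos _ (by omega) (by omega)
  · exact hrun _ (by omega) hlt

lemma FC_modEq {a e u v u' v' n : ℤ} (hu : u ≡ u' [ZMOD n]) (hv : v ≡ v' [ZMOD n]) :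
    FC a e u v ≡ FC a e u' v' [ZMOD n] := by
  simp only [FC, KC]
  gcongr

/-- the quartic form has constant sign -/
lemma K_sign {a e : ℤ} (h1 : 3 * e ^ 2 + a ≠ 0) (h2 : 3 * e ^ 2 + 4 * a ≠ 0)
    (hsgn : ¬ (0 < 3 * e ^ 2 + a ∧ 3 * e ^ 2 + 4 * a < 0)) :
    (∀ u v : ℤ, (u ≠ 0 ∨ v ≠ 0) → 0 < KC a e u v) ∨
      (∀ u v : ℤ, (u ≠ 0 ∨ v ≠ 0) → KC a e u v < 0) := by
  have hS : ∀ u v : ℤ, (u ≠ 0 ∨ v ≠ 0) → 0 < (u ^ 2 + v ^ 2) ^ 2 := by
    intro u v h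
    rcases h with h | h <;> positivity
  by_cases hp : 0 < 3 * e ^ 2 + a
  · left
    have h3 : 0 < 3 * e ^ 2 + 4 * a := by
      rcases lt_or_gt_of_ne h2 with h | h
      · exact absurd ⟨hp, h⟩ hsgn
      · exact h
    intro u v huv
    have e1 : 4 * KC a e u v = (3 * e ^ 2 + 4 * a) * (u ^ 2 + v ^ 2) ^ 2 +
        9 * e ^ 2 * (u ^ 2 - v ^ 2) ^ 2 := by simp only [KC]; ring
    have e2 : 0 < (3 * e ^ 2 + 4 * a) * (u ^ 2 + v ^ 2) ^ 2 := mul_pos h3 (hS u v huv)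
    have e3 : 0 ≤ 9 * e ^ 2 * (u ^ 2 - v ^ 2) ^ 2 := by positivity
    linarith
  · right
    have h3 : 3 * e ^ 2 + a < 0 := lt_of_le_of_ne (not_lt.1 hp) h1
    intro u v huv
    have e2 : (3 * e ^ 2 + a) * (u ^ 2 + v ^ 2) ^ 2 < 0 := mul_neg_of_neg_of_pos h3 (hS u v huv)
    have e3 : 0 ≤ 9 * e ^ 2 * u ^ 2 * v ^ 2 := by positivity
    simp only [KC]
    linarith

lemma FC_prod_pos {a e : ℤ} (he : e ≠ 0) (h1 : 3 * e ^ 2 + a ≠ 0) (h2 : 3 * e ^ 2 + 4 * a ≠ 0)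
    (hsgn : ¬ (0 < 3 * e ^ 2 + a ∧ 3 * e ^ 2 + 4 * a < 0)) {u v u' v' : ℤ}
    (huv : u ≠ 0 ∨ v ≠ 0) (huv' : u' ≠ 0 ∨ v' ≠ 0) : 0 < FC a e u v * FC a e u' v' := by
  have hS : ∀ u v : ℤ, (u ≠ 0 ∨ v ≠ 0) → 0 < u ^ 2 + v ^ 2 := by
    intro u v h
    rcases h with h | h <;> positivity
  have e1 : FC a e u v * FC a e u' v' = 9 * e ^ 2 * (u ^ 2 + v ^ 2) * (u' ^ 2 + v' ^ 2) *
      (KC a e u v * KC a e u' v') := by simp only [FC]; ring
  have e2 : 0 < KC a e u v * KC a e u' v' := by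
    rcases K_sign h1 h2 hsgn with h | h
    · exact mul_pos (h u v huv) (h u' v' huv')
    · exact mul_pos_of_neg_of_neg (h u v huv) (h u' v' huv')
  rw [e1]
  have e3 : 0 < 9 * e ^ 2 * (u ^ 2 + v ^ 2) * (u' ^ 2 + v' ^ 2) := by
    have := hS u v huv
    have := hS u' v' huv'
    positivity
  exact mul_pos e3 e2

/-- a prime `q ≥ 7` of multiplicative reduction gives a value with sign `1` -/
theorem flipC {a e : ℤ} {q M : ℕ} (hq : q.Prime) (h7 : 7 ≤ q) (hM : 1 ≤ M) (hqM : ¬ q ∣ M)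
    (he : ¬ (q : ℤ) ∣ e) (hD : (q : ℤ) ∣ (3 * e ^ 2 + a) * (3 * e ^ 2 + 4 * a))
    (h1 : 3 * e ^ 2 + a ≠ 0) (h2 : 3 * e ^ 2 + 4 * a ≠ 0) {w : ℤ → ℤ}
    (hw : ∀ d, d ≠ 0 → w d = 1 ∨ w d = -1)
    (hwq : ∀ d e : ℤ, ¬ (q : ℤ) ∣ d → ¬ (q : ℤ) ∣ e → (8 * M : ℤ) ∣ e - 1 →
      w (d * e) = e.sign * jacobiSym e q * w d)
    (hsgn : ¬ (0 < 3 * e ^ 2 + a ∧ 3 * e ^ 2 + 4 * a < 0)) :
    ∃ u v : ℤ, FC a e u v ≠ 0 ∧ w (FC a e u v) = 1 := by
  have : Fact q.Prime := ⟨hq⟩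
  have hqI : Prime (q : ℤ) := Nat.prime_iff_prime_int.1 hq
  have he0 : e ≠ 0 := by
    rintro rfl
    exact he (dvd_zero _)
  have hsmall : ∀ n : ℤ, 0 < n → n < 7 → ¬ (q : ℤ) ∣ n := by
    intro n h1 h2 h3
    have := Int.le_of_dvd h1 h3
    omega
  have h3q : ¬ (q : ℤ) ∣ 3 := hsmall 3 (by norm_num) (by norm_num)
  have h2q : ¬ (q : ℤ) ∣ 2 := hsmall 2 (by norm_num) (by norm_num)
  have hkey : ¬ ((q : ℤ) ∣ 3 * e ^ 2 + a ∧ (q : ℤ) ∣ 3 * e ^ 2 + 4 * a) := by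
    rintro ⟨h4, h5⟩
    have h6 : (q : ℤ) ∣ 3 * (3 * e ^ 2) := by
      have h7 : 3 * (3 * e ^ 2) = 4 * (3 * e ^ 2 + a) - (3 * e ^ 2 + 4 * a) := by ring
      rw [h7]
      exact dvd_sub (h4.mul_left _) h5
    rcases hqI.dvd_or_dvd h6 with h | h
    · exact h3q h
    rcases hqI.dvd_or_dvd h with h | h
    · exact h3q h
    · exact he (hqI.dvd_of_dvd_pow h)
  have hMz : ¬ (q : ℤ) ∣ M := by
    intro h; exact hqM (by exact_mod_cast h)
  have hM0 : (M : ℤ) ≠ 0 := by positivity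
  have ea : (e : ZMod q) ≠ 0 := by
    rw [Ne, ZMod.intCast_zmod_eq_zero_iff_dvd]; exact he
  have t3 : (3 : ZMod q) ≠ 0 := by
    have : ((3 : ℤ) : ZMod q) ≠ 0 := by rw [Ne, ZMod.intCast_zmod_eq_zero_iff_dvd]; exact h3q
    exact_mod_cast this
  have t2 : (2 : ZMod q) ≠ 0 := by
    have : ((2 : ℤ) : ZMod q) ≠ 0 := by rw [Ne, ZMod.intCast_zmod_eq_zero_iff_dvd]; exact h2q
    exact_mod_cast this
  -- solve a congruence
  have crt : ∀ (F0 x0 : ℤ) (t : ZMod q), ¬ (q : ℤ) ∣ F0 →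
      ∃ x : ℤ, 8 * M * F0 ∣ x - x0 ∧ (x : ZMod q) = t := by
    intro F0 x0 t hF0
    have hc : ((8 * M * F0 : ℤ) : ZMod q) ≠ 0 := by
      rw [Ne, ZMod.intCast_zmod_eq_zero_iff_dvd]
      intro h
      rcases hqI.dvd_or_dvd h with h | h
      · rcases hqI.dvd_or_dvd h with h | h
        · have h8 : (q : ℤ) ∣ 2 ^ 3 := by simpa using h
          exact h2q (hqI.dvd_of_dvd_pow h8)
        · exact hMz h
      · exact hF0 h
    refine ⟨x0 + 8 * M * F0 * ((((8 * M * F0 : ℤ) : ZMod q)⁻¹ * (t - x0)).val : ℤ),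
      ⟨((((8 * M * F0 : ℤ) : ZMod q)⁻¹ * (t - x0)).val : ℤ), add_sub_cancel_left _ _⟩, ?_⟩
    rw [Int.cast_add, Int.cast_mul (8 * M * F0), Int.cast_natCast, ZMod.natCast_zmod_val,
      mul_inv_cancel_left₀ hc]
    ring
  -- general step
  have step : ∀ u0 v0 u v : ℤ, ¬ (q : ℤ) ∣ FC a e u0 v0 → (u0 ≠ 0 ∨ v0 ≠ 0) → (u ≠ 0 ∨ v ≠ 0) →
      8 * M * FC a e u0 v0 ∣ u - u0 → 8 * M * FC a e u0 v0 ∣ v - v0 →
      (∀ c : ZMod q, (FC a e u v : ZMod q) = FC a e u0 v0 * c → ¬ IsSquare c) →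
      ∃ u v : ℤ, FC a e u v ≠ 0 ∧ w (FC a e u v) = 1 := by
    intro u0 v0 u v hq0 h0 h hu hv hc
    have hF0 : FC a e u0 v0 ≠ 0 := fun h => hq0 (h ▸ dvd_zero _)
    rcases hw _ hF0 with hw1 | hw1
    · exact ⟨u0, v0, hF0, hw1⟩
    have hmod : FC a e u0 v0 ≡ FC a e u v [ZMOD 8 * M * FC a e u0 v0] :=
      FC_modEq (Int.modEq_iff_dvd.2 hu) (Int.modEq_iff_dvd.2 hv)
    obtain ⟨c, hcc⟩ := Int.modEq_iff_dvd.1 hmod
    set F0 := FC a e u0 v0 with hF0'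
    have hF : FC a e u v = F0 * (1 + 8 * M * c) := by
      rw [eq_add_of_sub_eq hcc]; ring
    set ee : ℤ := 1 + 8 * M * c with hee
    have hpos : 0 < FC a e u v * F0 := FC_prod_pos he0 h1 h2 hsgn h h0
    have hepos : 0 < ee := by
      rw [hF] at hpos
      have h7 : F0 * ee * F0 = F0 ^ 2 * ee := by ring
      rw [h7] at hpos
      have h8 : 0 < F0 ^ 2 := by positivity
      exact (mul_pos_iff_of_pos_left h8).1 hpos
    have hns : ¬ IsSquare ((ee : ℤ) : ZMod q) := hc _ (by rw [hF]; push_cast; ring)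
    have hjac : jacobiSym ee q = -1 := by
      rw [← jacobiSym.legendreSym.to_jacobiSym]
      exact (legendreSym.eq_neg_one_iff q).2 hns
    have hqe : ¬ (q : ℤ) ∣ ee := by
      intro h
      apply hns
      rw [(ZMod.intCast_zmod_eq_zero_iff_dvd ee q).2 h]
      exact ⟨0, by norm_num⟩
    refine ⟨u, v, ?_, ?_⟩
    · rw [hF]; exact mul_ne_zero hF0 hepos.ne'
    · rw [hF, hwq F0 ee hq0 hqe ⟨c, by rw [hee]; ring⟩, hjac, hw1, Int.sign_eq_one_of_pos hepos]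
      norm_num
  rcases hqI.dvd_or_dvd hD with hb | hb
  · -- base (1,1)
    have hbz : (3 : ZMod q) * e ^ 2 + a = 0 := by
      have := (ZMod.intCast_zmod_eq_zero_iff_dvd (3 * e ^ 2 + a) q).2 hb
      push_cast at this; exact this
    have hq0 : ¬ (q : ℤ) ∣ FC a e 1 1 := by
      rw [FC_one_one]
      intro h
      rcases hqI.dvd_or_dvd h with h | h
      · rcases hqI.dvd_or_dvd ((dvd_neg).1 h) with h | h
        · exact hsmall 6 (by norm_num) (by norm_num) h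
        · exact he h
      · exact hkey ⟨hb, h⟩
    obtain ⟨t, ht0, ht⟩ := ex1 hq h7
    obtain ⟨u, hu, hut⟩ := crt _ 1 t hq0
    refine step 1 1 u 1 hq0 (Or.inl one_ne_zero) (Or.inr one_ne_zero) hu (by simp) ?_
    rintro c hc ⟨z, hz⟩
    apply ht
    have haz : (a : ZMod q) = -(3 * e ^ 2) := by linear_combination hbz
    simp only [FC, KC] at hc
    push_cast at hc
    rw [haz, hut] at hc
    have e1 : 27 * (e : ZMod q) ^ 3 * (t ^ 2 * (t ^ 2 + 1)) = 27 * (e : ZMod q) ^ 3 * (2 * c) := by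
      linear_combination hc
    have h27 : 27 * (e : ZMod q) ^ 3 ≠ 0 := by
      have : (27 : ZMod q) = 3 ^ 3 := by norm_num
      rw [this]
      exact mul_ne_zero (pow_ne_zero 3 t3) (pow_ne_zero 3 ea)
    have e2 := mul_left_cancel₀ h27 e1
    refine ⟨2 * z * t⁻¹, ?_⟩
    have e3 : 2 * z * t⁻¹ * (2 * z * t⁻¹) = 2 * (2 * (z * z)) * (t⁻¹) ^ 2 := by ring
    rw [e3, ← hz, ← e2]
    field_simp
  · -- base (1,0)
    have hbz : (3 : ZMod q) * e ^ 2 + 4 * a = 0 := by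
      have := (ZMod.intCast_zmod_eq_zero_iff_dvd (3 * e ^ 2 + 4 * a) q).2 hb
      push_cast at this; exact this
    have hq0 : ¬ (q : ℤ) ∣ FC a e 1 0 := by
      rw [FC_one_zero]
      intro h
      rcases hqI.dvd_or_dvd h with h | h
      · rcases hqI.dvd_or_dvd ((dvd_neg).1 h) with h | h
        · exact h3q h
        · exact he h
      · exact hkey ⟨h, hb⟩
    obtain ⟨t, ht0, ht⟩ := ex2 hq h7
    obtain ⟨v, hv, hvt⟩ := crt _ 0 t hq0
    refine step 1 0 1 v hq0 (Or.inl one_ne_zero) (Or.inl one_ne_zero) (by simp) hv ?_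
    rintro c hc ⟨z, hz⟩
    apply ht
    have t4 : (4 : ZMod q) ≠ 0 := by
      have : (4 : ZMod q) = 2 * 2 := by norm_num
      rw [this]; exact mul_ne_zero t2 t2
    simp only [FC, KC] at hc
    push_cast at hc
    rw [hvt] at hc
    have e1 : -27 * (e : ZMod q) ^ 3 * ((1 + t ^ 2) * (1 - t ^ 2) ^ 2) =
        -27 * (e : ZMod q) ^ 3 * c := by
      linear_combination 4 * hc + 3 * (e : ZMod q) * ((1 + t ^ 2) ^ 3 - c) * hbz
    have h27 : -27 * (e : ZMod q) ^ 3 ≠ 0 := by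
      have : (-27 : ZMod q) = -(3 ^ 3) := by norm_num
      rw [this]
      exact mul_ne_zero (neg_ne_zero.2 (pow_ne_zero 3 t3)) (pow_ne_zero 3 ea)
    have e2 := mul_left_cancel₀ h27 e1
    have hn1 : (1 - t ^ 2) ≠ 0 := fun h => ht0 (sub_eq_zero.1 h).symm
    refine ⟨z * (1 - t ^ 2)⁻¹, ?_⟩
    have e3 : z * (1 - t ^ 2)⁻¹ * (z * (1 - t ^ 2)⁻¹) = (z * z) * ((1 - t ^ 2)⁻¹) ^ 2 := by ring
    rw [e3, ← hz, ← e2]
    field_simp

end Pool.Agent.Helper33.TC
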