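import Pool.Agent.Helper19.TC.Fam
import Pool.Agent.Helper8.TW.Sign

/-! Signs of the sextic form. -/

namespace Pool.Agent.Helper33.TC

open Pool.Agent.Helper19.TW Pool.Agent.Helper19.TC

/-- the rational root is the smallest or the largest of three real roots: both signs occur -/
theorem baseC {a e : ℤ} (he : e ≠ 0) (h1 : 0 < 3 * e ^ 2 + a) (h2 : 3 * e ^ 2 + 4 * a < 0)
    {M : ℕ} (hM : 1 ≤ M) {w : ℤ → ℤ} (hw : RootLike M w) :
    ∃ u v : ℤ, FC a e u v ≠ 0 ∧ w (FC a e u v) = 1 := by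
  set F0 : ℤ := FC a e 1 0 with hF0
  have hF0' : F0 = -(3 * e) * (3 * e ^ 2 + a) := by rw [hF0, FC_one_zero]
  have h0 : F0 ≠ 0 := by
    rw [hF0']
    exact mul_ne_zero (neg_ne_zero.2 (mul_ne_zero (by norm_num) he)) h1.ne'
  rcases hw.pm _ h0 with hw1 | hw1
  · exact ⟨1, 0, h0, hw1⟩
  have hM' : (1 : ℤ) ≤ M := by exact_mod_cast hM
  have habs : |F0| = F0 * F0.sign := by rw [Int.mul_sign_self, Int.abs_eq_natAbs]
  have hge : 3 * |e| ≤ |F0| := by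
    rw [hF0', abs_mul, abs_neg, abs_mul]
    have e1 : (1 : ℤ) ≤ |3 * e ^ 2 + a| := Int.one_le_abs h1.ne'
    have e2 : |(3 : ℤ)| = 3 := by norm_num
    rw [e2]
    nlinarith [abs_nonneg e]
  set v : ℤ := 8 * M * |F0| with hv
  have hv24 : 24 * |e| ≤ v := by
    rw [hv]
    have e1 : 8 * |F0| ≤ 8 * M * |F0| := by nlinarith [abs_nonneg F0]
    linarith
  have hepos : 0 < |e| := abs_pos.2 he
  have hvpos : 0 < v := by linarith
  have hmod : FC a e 1 0 ≡ FC a e (v + 1) v [ZMOD 8 * M * F0] := by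
    have e1 : (v : ℤ) ≡ 0 [ZMOD 8 * M * F0] := by
      rw [Int.modEq_zero_iff_dvd]
      exact ⟨F0.sign, by rw [hv, habs]; ring⟩
    have e2 : (1 : ℤ) ≡ v + 1 [ZMOD 8 * M * F0] := by
      have := (e1.add_right 1).symm
      simpa using this
    have e3 := e1.symm
    simp only [FC, KC]
    gcongr
  obtain ⟨c, hc⟩ := Int.modEq_iff_dvd.1 hmod
  have hF : FC a e (v + 1) v = F0 * (1 + 8 * M * c) := by
    rw [eq_add_of_sub_eq hc, ← hF0]; ring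
  have hK : KC a e (v + 1) v < 0 := by
    have e1 : 4 * KC a e (v + 1) v = (3 * e ^ 2 + 4 * a) * ((v + 1) ^ 2 + v ^ 2) ^ 2 +
        9 * e ^ 2 * (2 * v + 1) ^ 2 := by simp only [KC]; ring
    have e2 : e ^ 2 = |e| ^ 2 := (sq_abs e).symm
    have e3 : (3 * e ^ 2 + 4 * a) * ((v + 1) ^ 2 + v ^ 2) ^ 2 ≤ -(((v + 1) ^ 2 + v ^ 2) ^ 2) := by
      have : 3 * e ^ 2 + 4 * a ≤ -1 := by omega
      nlinarith [sq_nonneg ((v + 1) ^ 2 + v ^ 2)]
    have e4 : 576 * |e| ^ 2 ≤ v ^ 2 := by nlinarith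
    have e5 : (2 * v + 1) ^ 2 ≤ 9 * v ^ 2 := by nlinarith
    have e6 : (2 * v ^ 2) ^ 2 ≤ ((v + 1) ^ 2 + v ^ 2) ^ 2 := by
      apply pow_le_pow_left₀ (by positivity)
      nlinarith
    have e7 : 9 * |e| ^ 2 * (2 * v + 1) ^ 2 ≤ 9 * |e| ^ 2 * (9 * v ^ 2) :=
      mul_le_mul_of_nonneg_left e5 (by positivity)
    have e8 : |e| ^ 2 * v ^ 2 * 576 ≤ v ^ 2 * v ^ 2 := by nlinarith [sq_nonneg v]
    have e9 : 0 < v ^ 2 * v ^ 2 := by positivity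
    rw [e2] at e1
    nlinarith
  have hS : 0 < (v + 1) ^ 2 + v ^ 2 := by positivity
  have hneg : FC a e (v + 1) v * F0 < 0 := by
    have e1 : FC a e (v + 1) v * F0 = 9 * e ^ 2 * (3 * e ^ 2 + a) * ((v + 1) ^ 2 + v ^ 2) *
        KC a e (v + 1) v := by
      rw [hF0']; simp only [FC]; ring
    rw [e1]
    apply mul_neg_of_pos_of_neg _ hK
    positivity
  set ee : ℤ := 1 + 8 * M * c with hee
  have heeneg : ee < 0 := by
    rw [hF] at hneg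
    have h7 : F0 * ee * F0 = F0 ^ 2 * ee := by ring
    rw [h7] at hneg
    have h8 : 0 < F0 ^ 2 := by positivity
    by_contra h9
    push Not at h9
    have := mul_nonneg h8.le h9
    linarith
  refine ⟨v + 1, v, ?_, ?_⟩
  · rw [hF]; exact mul_ne_zero h0 heeneg.ne
  · rw [hF, hw.tw _ _ h0 ⟨c, by rw [hee]; ring⟩, hw1, Int.sign_eq_neg_one_of_neg heeneg]
    norm_num

/-- the sign of the quartic form is constant in a cone -/
theorem coneC {a e u1 v1 : ℤ} (h : KC a e u1 v1 ≠ 0) :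
    ∃ eps : ℝ, 0 < eps ∧ eps < 1 ∧ ∀ (t : ℝ) (u v : ℤ), 0 < t → |(u : ℝ) - t * u1| ≤ eps * t →
      |(v : ℝ) - t * v1| ≤ eps * t → 0 < KC a e u v * KC a e u1 v1 := by
  have hcast : ∀ u v : ℤ, ((KC a e u v : ℤ) : ℝ) = (3 * (e : ℝ) ^ 2 + a) *
      ((u : ℝ) ^ 2 + (v : ℝ) ^ 2) ^ 2 - 9 * (e : ℝ) ^ 2 * (u : ℝ) ^ 2 * (v : ℝ) ^ 2 := by
    intro u v
    simp only [KC]; push_cast; ring
  obtain ⟨eps, e1, e2, e3⟩ := Pool.Agent.Helper8.TW.cone_pos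
    (fun x y => ((3 * (e : ℝ) ^ 2 + a) * (x ^ 2 + y ^ 2) ^ 2 - 9 * (e : ℝ) ^ 2 * x ^ 2 * y ^ 2) *
      ((KC a e u1 v1 : ℤ) : ℝ)) (by fun_prop) 4 (by intro t x y; ring) u1 v1 (by
      rw [← hcast, ← sq]
      have : ((KC a e u1 v1 : ℤ) : ℝ) ≠ 0 := by exact_mod_cast h
      positivity)
  refine ⟨eps, e1, e2, fun t u v ht hu hv => ?_⟩
  have h4 := e3 t u v ht hu hv
  rw [← hcast] at h4
  exact_mod_cast h4

end Pool.Agent.Helper33.TC
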